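import Mathlib

set_option autoImplicit false

/-!
Polynomial networks with seven layers and quadratic activation: the network over a commutative
semiring, and the directional derivative of its output with respect to the weights.
-/

namespace Pool.Agent.J4.H19.Net

open Finset

section lay

variable {A : Type*} [CommSemiring A]

/-- one layer with activation exponent `r` -/
def lay (w : ℕ → ℕ → A) (n r : ℕ) (h : ℕ → A) (a : ℕ) : A :=
  ∑ b ∈ range n, w a b * h b ^ r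

theorem lay_congr {w w' : ℕ → ℕ → A} {n r : ℕ} {h h' : ℕ → A} {a : ℕ}
    (hw : ∀ b < n, w a b = w' a b) (hh : ∀ b < n, h b = h' b) : lay w n r h a = lay w' n r h' a := by
  unfold lay
  refine Finset.sum_congr rfl fun b hb => ?_
  rw [Finset.mem_range] at hb
  rw [hw b hb, hh b hb]

/-- layers one to six, and the output layer, for the widths `e` -/
def hid (e : Fin 8 → ℕ) (w : Fin 7 → ℕ → ℕ → A) (x : ℕ → A) : Fin 8 → ℕ → A
  | 0 => x
  | 1 => lay (w 0) (e 0) 1 x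
  | 2 => lay (w 1) (e 1) 2 (lay (w 0) (e 0) 1 x)
  | 3 => lay (w 2) (e 2) 2 (lay (w 1) (e 1) 2 (lay (w 0) (e 0) 1 x))
  | 4 => lay (w 3) (e 3) 2 (lay (w 2) (e 2) 2 (lay (w 1) (e 1) 2 (lay (w 0) (e 0) 1 x)))
  | 5 => lay (w 4) (e 4) 2 (lay (w 3) (e 3) 2 (lay (w 2) (e 2) 2 (lay (w 1) (e 1) 2
      (lay (w 0) (e 0) 1 x))))
  | 6 => lay (w 5) (e 5) 2 (lay (w 4) (e 4) 2 (lay (w 3) (e 3) 2 (lay (w 2) (e 2) 2
      (lay (w 1) (e 1) 2 (lay (w 0) (e 0) 1 x)))))
  | 7 => lay (w 6) (e 6) 2 (lay (w 5) (e 5) 2 (lay (w 4) (e 4) 2 (lay (w 3) (e 3) 2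
      (lay (w 2) (e 2) 2 (lay (w 1) (e 1) 2 (lay (w 0) (e 0) 1 x))))))

theorem map_lay {B : Type*} [CommSemiring B] (f : A →+* B) (w : ℕ → ℕ → A) (n r : ℕ) (h : ℕ → A)
    (a : ℕ) : f (lay w n r h a) = lay (fun a b => f (w a b)) n r (fun b => f (h b)) a := by
  simp [lay]

theorem map_hid {B : Type*} [CommSemiring B] (f : A →+* B) (e : Fin 8 → ℕ)
    (w : Fin 7 → ℕ → ℕ → A) (x : ℕ → A) (l : Fin 8) (a : ℕ) :
    f (hid e w x l a) = hid e (fun k a b => f (w k a b)) (fun b => f (x b)) l a := by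
  fin_cases l <;> simp only [hid, map_lay]

/-- the cotangent at the layer below -/
def back (w : ℕ → ℕ → A) (m : ℕ) (h G : ℕ → A) (b : ℕ) : A :=
  (∑ a ∈ range m, G a * w a b) * (2 * h b)

/-- the terms of the directional derivative which come from one layer -/
def term (w' : ℕ → ℕ → A) (m n r : ℕ) (h G : ℕ → A) : A :=
  ∑ a ∈ range m, G a * ∑ b ∈ range n, w' a b * h b ^ r

/-- the directional derivative of the output `0` in the direction `w'`, where `h l` are the values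
of the layers and `G l` the cotangents -/
def dform (e : Fin 8 → ℕ) (w' : Fin 7 → ℕ → ℕ → A) (h G : Fin 8 → ℕ → A) : A :=
  term (w' 6) (e 7) (e 6) 2 (h 6) (G 7) + (term (w' 5) (e 6) (e 5) 2 (h 5) (G 6) +
  (term (w' 4) (e 5) (e 4) 2 (h 4) (G 5) + (term (w' 3) (e 4) (e 3) 2 (h 3) (G 4) +
  (term (w' 2) (e 3) (e 2) 2 (h 2) (G 3) + (term (w' 1) (e 2) (e 1) 2 (h 1) (G 2) +
  term (w' 0) (e 1) (e 0) 1 (h 0) (G 1))))))

/-- `h` are the values of the layers of the network, `G` the cotangents -/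
structure Trace (e : Fin 8 → ℕ) (w : Fin 7 → ℕ → ℕ → A) (x : ℕ → A) (h G : Fin 8 → ℕ → A) :
    Prop where
  h0 : ∀ a < e 0, h 0 a = x a
  h1 : ∀ a < e 1, h 1 a = lay (w 0) (e 0) 1 (h 0) a
  h2 : ∀ a < e 2, h 2 a = lay (w 1) (e 1) 2 (h 1) a
  h3 : ∀ a < e 3, h 3 a = lay (w 2) (e 2) 2 (h 2) a
  h4 : ∀ a < e 4, h 4 a = lay (w 3) (e 3) 2 (h 3) a
  h5 : ∀ a < e 5, h 5 a = lay (w 4) (e 4) 2 (h 4) a
  h6 : ∀ a < e 6, h 6 a = lay (w 5) (e 5) 2 (h 5) a
  g7 : ∀ a < e 7, G 7 a = if a = 0 then 1 else 0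
  g6 : ∀ b < e 6, G 6 b = back (w 6) (e 7) (h 6) (G 7) b
  g5 : ∀ b < e 5, G 5 b = back (w 5) (e 6) (h 5) (G 6) b
  g4 : ∀ b < e 4, G 4 b = back (w 4) (e 5) (h 4) (G 5) b
  g3 : ∀ b < e 3, G 3 b = back (w 3) (e 4) (h 3) (G 4) b
  g2 : ∀ b < e 2, G 2 b = back (w 2) (e 3) (h 2) (G 3) b
  g1 : ∀ b < e 1, G 1 b = back (w 1) (e 2) (h 1) (G 2) b

end lay

section der

variable {R A : Type*} [CommSemiring R] [CommSemiring A]

/-- `δ` is a derivation along the homomorphism `ev` -/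
structure Der (ev : R →+* A) (δ : R →+ A) : Prop where
  mul : ∀ f g, δ (f * g) = δ f * ev g + ev f * δ g

theorem Der.sq {ev : R →+* A} {δ : R →+ A} (H : Der ev δ) (f : R) :
    δ (f ^ 2) = 2 * ev f * δ f := by
  rw [pow_two, H.mul]
  ring

theorem der_lay2 {ev : R →+* A} {δ : R →+ A} (H : Der ev δ) (w : ℕ → ℕ → R) (n : ℕ) (h : ℕ → R)
    (a : ℕ) : δ (lay w n 2 h a) = ∑ b ∈ range n, δ (w a b) * ev (h b) ^ 2 +
      ∑ b ∈ range n, ev (w a b) * (2 * ev (h b)) * δ (h b) := by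
  unfold lay
  rw [map_sum, ← Finset.sum_add_distrib]
  refine Finset.sum_congr rfl fun b _ => ?_
  rw [H.mul, H.sq, map_pow]
  ring

theorem der_lay1 {ev : R →+* A} {δ : R →+ A} (H : Der ev δ) (w : ℕ → ℕ → R) (n : ℕ) (h : ℕ → R)
    (h0 : ∀ b, δ (h b) = 0) (a : ℕ) :
    δ (lay w n 1 h a) = ∑ b ∈ range n, δ (w a b) * ev (h b) ^ 1 := by
  unfold lay
  rw [map_sum]
  refine Finset.sum_congr rfl fun b _ => ?_
  rw [H.mul, pow_one, h0, mul_zero, add_zero, pow_one]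

theorem step2 {ev : R →+* A} {δ : R →+ A} (H : Der ev δ) (w : ℕ → ℕ → R) (m n : ℕ) (h : ℕ → R)
    (G : ℕ → A) : ∑ a ∈ range m, G a * δ (lay w n 2 h a) =
      term (fun a b => δ (w a b)) m n 2 (fun b => ev (h b)) G +
        ∑ b ∈ range n, back (fun a b => ev (w a b)) m (fun b => ev (h b)) G b * δ (h b) := by
  unfold term back
  simp only [der_lay2 H, mul_add, Finset.sum_add_distrib]
  congr 1
  simp only [Finset.mul_sum, Finset.sum_mul]
  rw [Finset.sum_comm]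
  refine Finset.sum_congr rfl fun b _ => Finset.sum_congr rfl fun a _ => ?_
  ring

theorem term_congr {w' : ℕ → ℕ → A} {m n r : ℕ} {h h' G G' : ℕ → A} (hh : ∀ b < n, h b = h' b)
    (hG : ∀ a < m, G a = G' a) : term w' m n r h G = term w' m n r h' G' := by
  unfold term
  refine Finset.sum_congr rfl fun a ha => ?_
  rw [Finset.mem_range] at ha
  rw [hG a ha]
  congr 1
  refine Finset.sum_congr rfl fun b hb => ?_
  rw [Finset.mem_range] at hb
  rw [hh b hb]

theorem back_congr {w : ℕ → ℕ → A} {m : ℕ} {h h' G G' : ℕ → A} {b : ℕ} (hh : h b = h' b)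
    (hG : ∀ a < m, G a = G' a) : back w m h G b = back w m h' G' b := by
  unfold back
  rw [hh]
  congr 1
  refine Finset.sum_congr rfl fun a ha => ?_
  rw [Finset.mem_range] at ha
  rw [hG a ha]

theorem sum_congr' {n : ℕ} {f g : ℕ → A} (h : ∀ b < n, f b = g b) :
    ∑ b ∈ range n, f b = ∑ b ∈ range n, g b :=
  Finset.sum_congr rfl fun b hb => h b (Finset.mem_range.1 hb)

/-- The directional derivative of the output. -/
theorem der_net {ev : R →+* A} {δ : R →+ A} (H : Der ev δ) (e : Fin 8 → ℕ) (he : 0 < e 7)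
    (w : Fin 7 → ℕ → ℕ → R) (x : ℕ → R) (hx : ∀ b, δ (x b) = 0) {h G : Fin 8 → ℕ → A}
    (T : Trace e (fun k a b => ev (w k a b)) (fun b => ev (x b)) h G) :
    δ (hid e w x 7 0) = dform e (fun k a b => δ (w k a b)) h G := by
  -- the values of the layers
  have e0 : ∀ b < e 0, ev (x b) = h 0 b := fun b hb => (T.h0 b hb).symm
  have e1 : ∀ b < e 1, ev (hid e w x 1 b) = h 1 b := fun b hb => by
    rw [T.h1 b hb]
    change ev (lay (w 0) (e 0) 1 x b) = _
    rw [map_lay]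
    exact lay_congr (fun _ _ => rfl) e0
  have e2 : ∀ b < e 2, ev (hid e w x 2 b) = h 2 b := fun b hb => by
    rw [T.h2 b hb]
    change ev (lay (w 1) (e 1) 2 (hid e w x 1) b) = _
    rw [map_lay]
    exact lay_congr (fun _ _ => rfl) e1
  have e3 : ∀ b < e 3, ev (hid e w x 3 b) = h 3 b := fun b hb => by
    rw [T.h3 b hb]
    change ev (lay (w 2) (e 2) 2 (hid e w x 2) b) = _
    rw [map_lay]
    exact lay_congr (fun _ _ => rfl) e2
  have e4 : ∀ b < e 4, ev (hid e w x 4 b) = h 4 b := fun b hb => by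
    rw [T.h4 b hb]
    change ev (lay (w 3) (e 3) 2 (hid e w x 3) b) = _
    rw [map_lay]
    exact lay_congr (fun _ _ => rfl) e3
  have e5 : ∀ b < e 5, ev (hid e w x 5 b) = h 5 b := fun b hb => by
    rw [T.h5 b hb]
    change ev (lay (w 4) (e 4) 2 (hid e w x 4) b) = _
    rw [map_lay]
    exact lay_congr (fun _ _ => rfl) e4
  have e6 : ∀ b < e 6, ev (hid e w x 6 b) = h 6 b := fun b hb => by
    rw [T.h6 b hb]
    change ev (lay (w 5) (e 5) 2 (hid e w x 5) b) = _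
    rw [map_lay]
    exact lay_congr (fun _ _ => rfl) e5
  have s7 : δ (hid e w x 7 0) = ∑ a ∈ range (e 7), G 7 a * δ (lay (w 6) (e 6) 2 (hid e w x 6) a) := by
    rw [Finset.sum_eq_single 0]
    · rw [T.g7 0 he, if_pos rfl, one_mul]
      rfl
    · intro a ha ha0
      rw [T.g7 a (Finset.mem_range.1 ha), if_neg ha0, zero_mul]
    · intro h0
      exact absurd (Finset.mem_range.2 he) h0
  rw [s7, step2 H]
  unfold dform
  refine congrArg₂ _ (term_congr e6 fun _ _ => rfl) ?_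
  have c6 : ∀ b < e 6, back (fun a b => ev (w 6 a b)) (e 7) (fun b => ev (hid e w x 6 b)) (G 7) b *
      δ (hid e w x 6 b) = G 6 b * δ (lay (w 5) (e 5) 2 (hid e w x 5) b) := fun b hb => by
    rw [back_congr (e6 b hb) (fun _ _ => rfl), T.g6 b hb]
    rfl
  rw [sum_congr' c6, step2 H]
  refine congrArg₂ _ (term_congr e5 fun _ _ => rfl) ?_
  have c5 : ∀ b < e 5, back (fun a b => ev (w 5 a b)) (e 6) (fun b => ev (hid e w x 5 b)) (G 6) b *
      δ (hid e w x 5 b) = G 5 b * δ (lay (w 4) (e 4) 2 (hid e w x 4) b) := fun b hb => by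
    rw [back_congr (e5 b hb) (fun _ _ => rfl), T.g5 b hb]
    rfl
  rw [sum_congr' c5, step2 H]
  refine congrArg₂ _ (term_congr e4 fun _ _ => rfl) ?_
  have c4 : ∀ b < e 4, back (fun a b => ev (w 4 a b)) (e 5) (fun b => ev (hid e w x 4 b)) (G 5) b *
      δ (hid e w x 4 b) = G 4 b * δ (lay (w 3) (e 3) 2 (hid e w x 3) b) := fun b hb => by
    rw [back_congr (e4 b hb) (fun _ _ => rfl), T.g4 b hb]
    rfl
  rw [sum_congr' c4, step2 H]
  refine congrArg₂ _ (term_congr e3 fun _ _ => rfl) ?_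
  have c3 : ∀ b < e 3, back (fun a b => ev (w 3 a b)) (e 4) (fun b => ev (hid e w x 3 b)) (G 4) b *
      δ (hid e w x 3 b) = G 3 b * δ (lay (w 2) (e 2) 2 (hid e w x 2) b) := fun b hb => by
    rw [back_congr (e3 b hb) (fun _ _ => rfl), T.g3 b hb]
    rfl
  rw [sum_congr' c3, step2 H]
  refine congrArg₂ _ (term_congr e2 fun _ _ => rfl) ?_
  have c2 : ∀ b < e 2, back (fun a b => ev (w 2 a b)) (e 3) (fun b => ev (hid e w x 2 b)) (G 3) b *
      δ (hid e w x 2 b) = G 2 b * δ (lay (w 1) (e 1) 2 (hid e w x 1) b) := fun b hb => by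
    rw [back_congr (e2 b hb) (fun _ _ => rfl), T.g2 b hb]
    rfl
  rw [sum_congr' c2, step2 H]
  refine congrArg₂ _ (term_congr e1 fun _ _ => rfl) ?_
  have c1 : ∀ b < e 1, back (fun a b => ev (w 1 a b)) (e 2) (fun b => ev (hid e w x 1 b)) (G 2) b *
      δ (hid e w x 1 b) = G 1 b * ∑ b' ∈ range (e 0), δ (w 0 b b') * ev (x b') ^ 1 := fun b hb => by
    rw [back_congr (e1 b hb) (fun _ _ => rfl), ← T.g1 b hb]
    congr 1
    exact der_lay1 H _ _ _ hx b
  rw [sum_congr' c1]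
  exact term_congr e0 fun _ _ => rfl

end der

end Pool.Agent.J4.H19.Net
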