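import Pool.Agent.J4.H19.NetFill

set_option autoImplicit false

/-!
Filling networks: coordinates, and the filling network `2, 3, 4, 5, 4, 6, 4, 1`.
-/

namespace Pool.Agent.J4.H19.Net

open Finset MvPolynomial

/-- the network with the widths `e` and the activation `x ^ 2` is filling -/
def Fill (e : Fin 8 → ℕ) : Prop :=
  ∀ P : MvPolynomial (ℕ × (ℕ →₀ ℕ)) ℂ,
    (∀ W : Fin 7 → ℕ → ℕ → ℂ, eval (fun p : ℕ × (ℕ →₀ ℕ) =>
      coeff p.2 (hid e (fun k a b => (C (W k a b) : MvPolynomial ℕ ℂ)) X 7 p.1)) P = 0) →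
    ∀ c : ℕ × (ℕ →₀ ℕ) → ℂ,
      (∀ p : ℕ × (ℕ →₀ ℕ), c p ≠ 0 →
        p.1 < e 7 ∧ (∑ b ∈ p.2.support, p.2 b) = 64 ∧ ∀ b ∈ p.2.support, b < e 0) →
      eval c P = 0

/-- the monomial of `X_0 ^ (64 - j) X_1 ^ j` -/
noncomputable def mon (j : ℕ) : ℕ →₀ ℕ := Finsupp.single 0 (64 - j) + Finsupp.single 1 j

theorem mon_one (j : ℕ) : mon j 1 = j := by simp [mon]

theorem mon_zero (j : ℕ) : mon j 0 = 64 - j := by simp [mon]

theorem mon_ne (j : ℕ) (i : ℕ) (h0 : i ≠ 0) (h1 : i ≠ 1) : mon j i = 0 := by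
  simp [mon, Ne.symm h0, Ne.symm h1]

theorem eq_mon (m : ℕ →₀ ℕ) (h : ∑ b ∈ m.support, m b = 64) (hs : ∀ b ∈ m.support, b < 2) :
    m = mon (m 1) ∧ m 1 ≤ 64 := by
  have hsub : m.support ⊆ {0, 1} := fun b hb => by
    have := hs b hb
    simp only [Finset.mem_insert, Finset.mem_singleton]
    omega
  have h1 : m 0 + m 1 = 64 := by
    rw [← h, Finset.sum_subset hsub (fun b _ hb => Finsupp.notMem_support_iff.1 hb)]
    simp
  refine ⟨?_, by omega⟩
  ext i
  by_cases h0 : i = 0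
  · subst h0
    rw [mon_zero]
    omega
  · by_cases h1' : i = 1
    · subst h1'
      rw [mon_one]
    · rw [mon_ne _ i h0 h1']
      by_contra hne
      have := hs i (Finsupp.mem_support_iff.2 hne)
      omega

/-- homogeneous polynomials of degree 64 in the variables `X 0`, `X 1` -/
theorem coeff_of (f : MvPolynomial ℕ ℂ) (hf : f.IsHomogeneous 64)
    (hs : f ∈ supported ℂ {i : ℕ | i < 2}) :
    (∀ m, coeff m f ≠ 0 → m = mon (m 1) ∧ m 1 ≤ 64) ∧
      ∀ j : ℕ, j ≤ 64 →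
        (aeval (fun i : ℕ => (Polynomial.X : Polynomial ℂ) ^ i) f).coeff j = coeff (mon j) f := by
  classical
  have h1 : ∀ m, coeff m f ≠ 0 → m = mon (m 1) ∧ m 1 ≤ 64 := by
    intro m hm
    refine eq_mon m ?_ ?_
    · have h2 := hf hm
      rw [Finsupp.weight_apply, Finsupp.sum] at h2
      simpa using h2
    · intro b hb
      rw [mem_supported] at hs
      have h3 : b ∈ f.vars := (mem_vars_iff_mem_support b).2 ⟨m, mem_support_iff.2 hm, hb⟩
      exact hs h3
  refine ⟨h1, fun j hj => ?_⟩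
  have h4 : ∀ m, coeff m f ≠ 0 → (m.prod fun i k => ((Polynomial.X : Polynomial ℂ) ^ i) ^ k) =
      Polynomial.X ^ (m 1) := by
    intro m hm
    obtain ⟨h5, -⟩ := h1 m hm
    rw [Finsupp.prod_of_support_subset m (s := {0, 1})]
    · simp
    · intro i hi
      by_contra hni
      simp only [Finset.mem_insert, Finset.mem_singleton, not_or] at hni
      rw [Finsupp.mem_support_iff, h5] at hi
      exact hi (mon_ne _ i hni.1 hni.2)
    · intro i _
      exact pow_zero _
  conv_lhs => rw [f.as_sum]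
  rw [map_sum, Polynomial.finsetSum_coeff]
  have h6 : ∀ m ∈ f.support, ((aeval (fun i : ℕ => (Polynomial.X : Polynomial ℂ) ^ i))
      (monomial m (coeff m f))).coeff j = if m = mon j then coeff m f else 0 := by
    intro m hm
    have hm' := mem_support_iff.1 hm
    rw [aeval_monomial, h4 m hm', Polynomial.algebraMap_eq, Polynomial.coeff_C_mul,
      Polynomial.coeff_X_pow]
    by_cases hjm : j = m 1
    · rw [if_pos hjm, if_pos, mul_one]
      rw [hjm]
      exact (h1 m hm').1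
    · rw [if_neg hjm, if_neg, mul_zero]
      intro h7
      apply hjm
      rw [h7, mon_one]
  rw [Finset.sum_congr rfl h6, Finset.sum_ite_eq']
  split_ifs with h8
  · rfl
  · exact (notMem_support_iff.1 h8).symm

theorem lay_hom {w : ℕ → ℕ → ℂ} {n r d : ℕ} {h : ℕ → MvPolynomial ℕ ℂ}
    (hh : ∀ b, (h b).IsHomogeneous d) (a : ℕ) :
    (lay (fun a b => C (w a b)) n r h a).IsHomogeneous (d * r) := by
  unfold lay
  refine IsHomogeneous.sum _ _ _ fun b _ => ?_
  have h1 := (isHomogeneous_C ℕ (w a b)).mul ((hh b).pow r)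
  rwa [zero_add] at h1

theorem hid_hom (e : Fin 8 → ℕ) (W : Fin 7 → ℕ → ℕ → ℂ) (a : ℕ) :
    (hid e (fun k a b => (C (W k a b) : MvPolynomial ℕ ℂ)) X 7 a).IsHomogeneous 64 := by
  have h1 := lay_hom (w := W 0) (n := e 0) (r := 1) (fun b => isHomogeneous_X ℂ b)
  have h2 := lay_hom (w := W 1) (n := e 1) (r := 2) h1
  have h3 := lay_hom (w := W 2) (n := e 2) (r := 2) h2
  have h4 := lay_hom (w := W 3) (n := e 3) (r := 2) h3
  have h5 := lay_hom (w := W 4) (n := e 4) (r := 2) h4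
  have h6 := lay_hom (w := W 5) (n := e 5) (r := 2) h5
  exact lay_hom (w := W 6) (n := e 6) (r := 2) h6 a

theorem lay_supp {w : ℕ → ℕ → ℂ} {n r : ℕ} {h : ℕ → MvPolynomial ℕ ℂ} {s : Set ℕ}
    (hh : ∀ b < n, h b ∈ supported ℂ s) (a : ℕ) :
    lay (fun a b => C (w a b)) n r h a ∈ supported ℂ s := by
  unfold lay
  refine Subalgebra.sum_mem _ fun b hb => ?_
  exact Subalgebra.mul_mem _ (Subalgebra.algebraMap_mem _ _)
    (Subalgebra.pow_mem _ (hh b (Finset.mem_range.1 hb)) _)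

theorem hid_supp (e : Fin 8 → ℕ) (he : e 0 = 2) (W : Fin 7 → ℕ → ℕ → ℂ) (a : ℕ) :
    hid e (fun k a b => (C (W k a b) : MvPolynomial ℕ ℂ)) X 7 a ∈
      supported ℂ {i : ℕ | i < 2} := by
  have h1 : ∀ a, lay (fun a b => C (W 0 a b)) (e 0) 1 X a ∈ supported ℂ {i : ℕ | i < 2} :=
    lay_supp fun b hb => by
      rw [he] at hb
      exact Algebra.subset_adjoin ⟨b, hb, rfl⟩
  have h2 := fun a => lay_supp (w := W 1) (n := e 1) (r := 2) (fun b _ => h1 b) a
  have h3 := fun a => lay_supp (w := W 2) (n := e 2) (r := 2) (fun b _ => h2 b) a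
  have h4 := fun a => lay_supp (w := W 3) (n := e 3) (r := 2) (fun b _ => h3 b) a
  have h5 := fun a => lay_supp (w := W 4) (n := e 4) (r := 2) (fun b _ => h4 b) a
  have h6 := fun a => lay_supp (w := W 5) (n := e 5) (r := 2) (fun b _ => h5 b) a
  exact lay_supp (w := W 6) (n := e 6) (r := 2) (fun b _ => h6 b) a

/-- the coefficients of the outputs, by the dehomogenized network -/
theorem coeff_hid (e : Fin 8 → ℕ) (he : e 0 = 2) (W : Fin 7 → ℕ → ℕ → ℂ) (a : ℕ) :
    (∀ m, coeff m (hid e (fun k a b => (C (W k a b) : MvPolynomial ℕ ℂ)) X 7 a) ≠ 0 →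
      m = mon (m 1) ∧ m 1 ≤ 64) ∧
    ∀ j : ℕ, j ≤ 64 → coeff (mon j) (hid e (fun k a b => (C (W k a b) : MvPolynomial ℕ ℂ)) X 7 a) =
      (hid e (fun k a b => Polynomial.C (W k a b)) (fun b => Polynomial.X ^ b) 7 a).coeff j := by
  obtain ⟨h1, h2⟩ := coeff_of _ (hid_hom e W a) (hid_supp e he W a)
  refine ⟨h1, fun j hj => ?_⟩
  rw [← h2 j hj]
  have h3 := map_hid (aeval (fun i : ℕ => (Polynomial.X : Polynomial ℂ) ^ i) :
    MvPolynomial ℕ ℂ →ₐ[ℂ] Polynomial ℂ).toRingHom e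
    (fun k a b => (C (W k a b) : MvPolynomial ℕ ℂ)) X 7 a
  simp only [AlgHom.toRingHom_eq_coe, RingHom.coe_coe, aeval_X, ← algebraMap_eq,
    AlgHom.commutes, Polynomial.algebraMap_eq] at h3
  rw [← h3]
  simp only [algebraMap_eq]

section ext

/-- extension by zero of a vector of coefficients -/
noncomputable def extz {A : Type*} [AddCommMonoid A] (y : Fin 65 → A) : ℕ × (ℕ →₀ ℕ) → A :=
  fun p => ∑ j : Fin 65, if p = (0, mon j.val) then y j else 0

theorem mon_inj {i j : ℕ} (h : mon i = mon j) : i = j := by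
  rw [← mon_one i, h, mon_one]

theorem extz_mon {A : Type*} [AddCommMonoid A] (y : Fin 65 → A) (j : Fin 65) :
    extz y (0, mon j.val) = y j := by
  unfold extz
  rw [Finset.sum_eq_single j]
  · rw [if_pos rfl]
  · intro i _ hij
    rw [if_neg]
    intro h
    exact hij (Fin.ext (mon_inj (Prod.ext_iff.1 h).2).symm)
  · intro h
    exact absurd (Finset.mem_univ _) h

theorem extz_of_ne {A : Type*} [AddCommMonoid A] (y : Fin 65 → A) (p : ℕ × (ℕ →₀ ℕ))
    (h : ∀ j : Fin 65, p ≠ (0, mon j.val)) : extz y p = 0 := by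
  unfold extz
  exact Finset.sum_eq_zero fun j _ => if_neg (h j)

/-- a family which is supported on the coordinates is an extension by zero -/
theorem eq_extz {c : ℕ × (ℕ →₀ ℕ) → ℂ} (h : ∀ p, c p ≠ 0 → ∃ j : Fin 65, p = (0, mon j.val)) :
    c = extz fun j => c (0, mon j.val) := by
  funext p
  by_cases hp : ∃ j : Fin 65, p = (0, mon j.val)
  · obtain ⟨j, rfl⟩ := hp
    rw [extz_mon]
  · rw [extz_of_ne _ p fun j hj => hp ⟨j, hj⟩]
    by_contra hne
    exact hp (h p hne)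

theorem ae_eq {σ : Type*} (y : σ → ℂ) (P : MvPolynomial σ ℂ) : aeval y P = eval y P := by
  rw [aeval_def, eval, coe_eval₂Hom]
  rfl

theorem eval_aeval_extz (y : Fin 65 → ℂ) (P : MvPolynomial (ℕ × (ℕ →₀ ℕ)) ℂ) :
    eval y (aeval (extz (X : Fin 65 → MvPolynomial (Fin 65) ℂ)) P) = eval (extz y) P := by
  rw [← ae_eq, ← ae_eq, MvPolynomial.comp_aeval_apply]
  refine congrArg (fun g : ℕ × (ℕ →₀ ℕ) → ℂ => aeval g P) ?_
  funext p
  unfold extz
  rw [map_sum]
  refine Finset.sum_congr rfl fun j _ => ?_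
  split_ifs
  · exact aeval_X _ _
  · exact map_zero _

end ext

theorem fill_dd : Fill dd := by
  intro P hP c hc
  have h1 : ∀ p, c p ≠ 0 → ∃ j : Fin 65, p = (0, mon j.val) := by
    rintro ⟨a, m⟩ hp
    obtain ⟨ha, h2, h3⟩ := hc _ hp
    change a < 1 at ha
    change ∀ b ∈ m.support, b < 2 at h3
    obtain ⟨h4, h5⟩ := eq_mon m h2 h3
    refine ⟨⟨m 1, by omega⟩, Prod.ext ?_ h4⟩
    change a = 0
    omega
  rw [eq_extz h1, ← eval_aeval_extz]
  suffices h : aeval (extz (X : Fin 65 → MvPolynomial (Fin 65) ℂ)) P = 0 by rw [h, map_zero]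
  apply dominant
  apply MvPolynomial.funext
  intro u
  rw [map_zero]
  obtain ⟨W, hW⟩ : ∃ W : Fin 7 → ℕ → ℕ → ℂ, W = fun k a b => eval u (gen k a b) := ⟨_, rfl⟩
  have h6 : eval u (aeval phi (aeval (extz (X : Fin 65 → MvPolynomial (Fin 65) ℂ)) P)) =
      eval (fun m => eval u (phi m)) (aeval (extz (X : Fin 65 → MvPolynomial (Fin 65) ℂ)) P) := by
    rw [← ae_eq, ← ae_eq, MvPolynomial.comp_aeval_apply]
    simp only [ae_eq]
  rw [h6, eval_aeval_extz]
  have h8 := hP W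
  rw [← h8]
  congr 2
  have h9 : ∀ p : ℕ × (ℕ →₀ ℕ),
      coeff p.2 (hid dd (fun k a b => (C (W k a b) : MvPolynomial ℕ ℂ)) X 7 p.1) ≠ 0 →
      ∃ j : Fin 65, p = (0, mon j.val) := by
    rintro ⟨a, m⟩ hp
    obtain ⟨h10, h11⟩ := (coeff_hid dd rfl W a).1 m hp
    have ha : a = 0 := by
      by_contra ha0
      apply hp
      change coeff m (lay (fun a b => C (W 6 a b)) (dd 6) 2 _ a) = 0
      have h12 : lay (fun a b => (C (W 6 a b) : MvPolynomial ℕ ℂ)) (dd 6) 2
          (hid dd (fun k a b => (C (W k a b) : MvPolynomial ℕ ℂ)) X 6) a = 0 := by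
        unfold lay
        refine Finset.sum_eq_zero fun b _ => ?_
        have h13 : W 6 a b = 0 := by
          rw [hW]
          change eval u (gen 6 a b) = 0
          unfold gen
          split_ifs with h14 h15
          · exact map_zero _
          · exact absurd ⟨rfl, ha0⟩ h15
          · exact map_zero _
        change C (W 6 a b) * _ = 0
        rw [h13, C_0, zero_mul]
      exact (congrArg (coeff m) h12).trans (coeff_zero m)
    exact ⟨⟨m 1, by omega⟩, Prod.ext ha h10⟩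
  rw [eq_extz h9]
  congr 1
  funext m
  rw [(coeff_hid dd rfl W 0).2 m.val (by omega)]
  have h16 := map_hid (Polynomial.mapRingHom (eval u)) dd
    (fun k a b => Polynomial.C (gen k a b)) (fun b => Polynomial.X ^ b) 7 0
  simp only [Polynomial.coe_mapRingHom, Polynomial.map_C, Polynomial.map_pow,
    Polynomial.map_X] at h16
  rw [hW, ← h16, Polynomial.coeff_map]
  rfl

end Pool.Agent.J4.H19.Net
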