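import Pool.Agent.J4.H19.NetCert

set_option autoImplicit false

/-!
The network with the widths `2, 3, 4, 5, 4, 6, 4, 1` and the activation `x ^ 2` is filling.
-/

namespace Pool.Agent.J4.H19.Net

open Finset

/-! ### Traces -/

section trace

variable {A B : Type*} [CommSemiring A] [CommSemiring B]

theorem map_back (f : A →+* B) (w : ℕ → ℕ → A) (m : ℕ) (h G : ℕ → A) (b : ℕ) :
    f (back w m h G b) = back (fun a b => f (w a b)) m (fun b => f (h b)) (fun b => f (G b)) b := by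
  simp only [back, map_mul, map_sum, map_ofNat]

theorem map_term (f : A →+* B) (w' : ℕ → ℕ → A) (m n r : ℕ) (h G : ℕ → A) :
    f (term w' m n r h G) =
      term (fun a b => f (w' a b)) m n r (fun b => f (h b)) (fun b => f (G b)) := by
  simp [term]

theorem map_dform (f : A →+* B) (e : Fin 8 → ℕ) (w' : Fin 7 → ℕ → ℕ → A) (h G : Fin 8 → ℕ → A) :
    f (dform e w' h G) = dform e (fun k a b => f (w' k a b)) (fun l a => f (h l a))
      (fun l a => f (G l a)) := by
  simp only [dform, map_add, map_term]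

theorem Trace.map {e : Fin 8 → ℕ} {w : Fin 7 → ℕ → ℕ → A} {x : ℕ → A} {h G : Fin 8 → ℕ → A}
    (T : Trace e w x h G) (f : A →+* B) :
    Trace e (fun k a b => f (w k a b)) (fun b => f (x b)) (fun l a => f (h l a))
      (fun l a => f (G l a)) where
  h0 a ha := by rw [T.h0 a ha]
  h1 a ha := by rw [T.h1 a ha, map_lay]
  h2 a ha := by rw [T.h2 a ha, map_lay]
  h3 a ha := by rw [T.h3 a ha, map_lay]
  h4 a ha := by rw [T.h4 a ha, map_lay]
  h5 a ha := by rw [T.h5 a ha, map_lay]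
  h6 a ha := by rw [T.h6 a ha, map_lay]
  g7 a ha := by rw [T.g7 a ha]; split_ifs <;> simp
  g6 a ha := by rw [T.g6 a ha, map_back]
  g5 a ha := by rw [T.g5 a ha, map_back]
  g4 a ha := by rw [T.g4 a ha, map_back]
  g3 a ha := by rw [T.g3 a ha, map_back]
  g2 a ha := by rw [T.g2 a ha, map_back]
  g1 a ha := by rw [T.g1 a ha, map_back]

theorem back_congr' {w w' : ℕ → ℕ → A} {m n : ℕ} {h h' G G' : ℕ → A} {b : ℕ} (hb : b < n)
    (hw : ∀ a < m, ∀ b < n, w a b = w' a b) (hh : ∀ b < n, h b = h' b)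
    (hG : ∀ a < m, G a = G' a) : back w m h G b = back w' m h' G' b := by
  unfold back
  rw [hh b hb]
  congr 1
  refine Finset.sum_congr rfl fun a ha => ?_
  rw [Finset.mem_range] at ha
  rw [hG a ha, hw a ha b hb]

/-- two traces agree -/
theorem Trace.unique {e : Fin 8 → ℕ} {w w' : Fin 7 → ℕ → ℕ → A} {x x' : ℕ → A}
    {h G h' G' : Fin 8 → ℕ → A} (T : Trace e w x h G) (T' : Trace e w' x' h' G')
    (hw : ∀ (k : Fin 7), ∀ a < e k.succ, ∀ b < e k.castSucc, w k a b = w' k a b)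
    (hx : ∀ b < e 0, x b = x' b) :
    (∀ l, l ≠ 7 → ∀ a < e l, h l a = h' l a) ∧ (∀ l, l ≠ 0 → ∀ a < e l, G l a = G' l a) := by
  have a0 : ∀ a < e 0, h 0 a = h' 0 a := fun a ha => by rw [T.h0 a ha, T'.h0 a ha, hx a ha]
  have a1 : ∀ a < e 1, h 1 a = h' 1 a := fun a ha => by
    rw [T.h1 a ha, T'.h1 a ha]; exact lay_congr (fun b hb => hw 0 a ha b hb) a0
  have a2 : ∀ a < e 2, h 2 a = h' 2 a := fun a ha => by
    rw [T.h2 a ha, T'.h2 a ha]; exact lay_congr (fun b hb => hw 1 a ha b hb) a1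
  have a3 : ∀ a < e 3, h 3 a = h' 3 a := fun a ha => by
    rw [T.h3 a ha, T'.h3 a ha]; exact lay_congr (fun b hb => hw 2 a ha b hb) a2
  have a4 : ∀ a < e 4, h 4 a = h' 4 a := fun a ha => by
    rw [T.h4 a ha, T'.h4 a ha]; exact lay_congr (fun b hb => hw 3 a ha b hb) a3
  have a5 : ∀ a < e 5, h 5 a = h' 5 a := fun a ha => by
    rw [T.h5 a ha, T'.h5 a ha]; exact lay_congr (fun b hb => hw 4 a ha b hb) a4
  have a6 : ∀ a < e 6, h 6 a = h' 6 a := fun a ha => by
    rw [T.h6 a ha, T'.h6 a ha]; exact lay_congr (fun b hb => hw 5 a ha b hb) a5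
  have g7 : ∀ a < e 7, G 7 a = G' 7 a := fun a ha => by rw [T.g7 a ha, T'.g7 a ha]
  have g6 : ∀ a < e 6, G 6 a = G' 6 a := fun a ha => by
    rw [T.g6 a ha, T'.g6 a ha]; exact back_congr' ha (hw 6) a6 g7
  have g5 : ∀ a < e 5, G 5 a = G' 5 a := fun a ha => by
    rw [T.g5 a ha, T'.g5 a ha]; exact back_congr' ha (hw 5) a5 g6
  have g4 : ∀ a < e 4, G 4 a = G' 4 a := fun a ha => by
    rw [T.g4 a ha, T'.g4 a ha]; exact back_congr' ha (hw 4) a4 g5
  have g3 : ∀ a < e 3, G 3 a = G' 3 a := fun a ha => by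
    rw [T.g3 a ha, T'.g3 a ha]; exact back_congr' ha (hw 3) a3 g4
  have g2 : ∀ a < e 2, G 2 a = G' 2 a := fun a ha => by
    rw [T.g2 a ha, T'.g2 a ha]; exact back_congr' ha (hw 2) a2 g3
  have g1 : ∀ a < e 1, G 1 a = G' 1 a := fun a ha => by
    rw [T.g1 a ha, T'.g1 a ha]; exact back_congr' ha (hw 1) a1 g2
  refine ⟨fun l hl => ?_, fun l hl => ?_⟩
  · fin_cases l
    · exact a0
    · exact a1
    · exact a2
    · exact a3
    · exact a4
    · exact a5
    · exact a6
    · exact absurd rfl hl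
  · fin_cases l
    · exact absurd rfl hl
    · exact g1
    · exact g2
    · exact g3
    · exact g4
    · exact g5
    · exact g6
    · exact g7

theorem term_congr' {w w' : ℕ → ℕ → A} {m n r : ℕ} {h h' G G' : ℕ → A}
    (hw : ∀ a < m, ∀ b < n, w a b = w' a b) (hh : ∀ b < n, h b = h' b)
    (hG : ∀ a < m, G a = G' a) : term w m n r h G = term w' m n r h' G' := by
  unfold term
  refine Finset.sum_congr rfl fun a ha => ?_
  rw [Finset.mem_range] at ha
  rw [hG a ha]
  congr 1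
  refine Finset.sum_congr rfl fun b hb => ?_
  rw [Finset.mem_range] at hb
  rw [hh b hb, hw a ha b hb]

theorem dform_congr {e : Fin 8 → ℕ} {w w' : Fin 7 → ℕ → ℕ → A} {h h' G G' : Fin 8 → ℕ → A}
    (hw : ∀ (k : Fin 7), ∀ a < e k.succ, ∀ b < e k.castSucc, w k a b = w' k a b)
    (hh : ∀ l, l ≠ 7 → ∀ a < e l, h l a = h' l a) (hG : ∀ l, l ≠ 0 → ∀ a < e l, G l a = G' l a) :
    dform e w h G = dform e w' h' G' := by
  exact congrArg₂ _ (term_congr' (hw 6) (hh 6 (by decide)) (hG 7 (by decide))) <|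
    congrArg₂ _ (term_congr' (hw 5) (hh 5 (by decide)) (hG 6 (by decide))) <|
    congrArg₂ _ (term_congr' (hw 4) (hh 4 (by decide)) (hG 5 (by decide))) <|
    congrArg₂ _ (term_congr' (hw 3) (hh 3 (by decide)) (hG 4 (by decide))) <|
    congrArg₂ _ (term_congr' (hw 2) (hh 2 (by decide)) (hG 3 (by decide))) <|
    congrArg₂ _ (term_congr' (hw 1) (hh 1 (by decide)) (hG 2 (by decide)))
      (term_congr' (hw 0) (hh 0 (by decide)) (hG 1 (by decide)))

/-- the cotangents -/
def cot (e : Fin 8 → ℕ) (w : Fin 7 → ℕ → ℕ → A) (x : ℕ → A) : Fin 8 → ℕ → A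
  | 7 => fun a => if a = 0 then 1 else 0
  | 6 => back (w 6) (e 7) (hid e w x 6) (fun a => if a = 0 then 1 else 0)
  | 5 => back (w 5) (e 6) (hid e w x 5) (back (w 6) (e 7) (hid e w x 6)
      (fun a => if a = 0 then 1 else 0))
  | 4 => back (w 4) (e 5) (hid e w x 4) (back (w 5) (e 6) (hid e w x 5)
      (back (w 6) (e 7) (hid e w x 6) (fun a => if a = 0 then 1 else 0)))
  | 3 => back (w 3) (e 4) (hid e w x 3) (back (w 4) (e 5) (hid e w x 4)
      (back (w 5) (e 6) (hid e w x 5) (back (w 6) (e 7) (hid e w x 6)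
        (fun a => if a = 0 then 1 else 0))))
  | 2 => back (w 2) (e 3) (hid e w x 2) (back (w 3) (e 4) (hid e w x 3)
      (back (w 4) (e 5) (hid e w x 4) (back (w 5) (e 6) (hid e w x 5)
        (back (w 6) (e 7) (hid e w x 6) (fun a => if a = 0 then 1 else 0)))))
  | 1 => back (w 1) (e 2) (hid e w x 1) (back (w 2) (e 3) (hid e w x 2)
      (back (w 3) (e 4) (hid e w x 3) (back (w 4) (e 5) (hid e w x 4)
        (back (w 5) (e 6) (hid e w x 5) (back (w 6) (e 7) (hid e w x 6)
          (fun a => if a = 0 then 1 else 0))))))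
  | 0 => fun _ => 0

theorem trace_hid (e : Fin 8 → ℕ) (w : Fin 7 → ℕ → ℕ → A) (x : ℕ → A) :
    Trace e w x (hid e w x) (cot e w x) where
  h0 _ _ := rfl
  h1 _ _ := rfl
  h2 _ _ := rfl
  h3 _ _ := rfl
  h4 _ _ := rfl
  h5 _ _ := rfl
  h6 _ _ := rfl
  g7 _ _ := rfl
  g6 _ _ := rfl
  g5 _ _ := rfl
  g4 _ _ := rfl
  g3 _ _ := rfl
  g2 _ _ := rfl
  g1 _ _ := rfl

end trace

/-! ### The matrix of the derivative -/

section matrix

open Polynomial

/-- the value of the directional derivative in the direction `kk j`, a polynomial with natural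
coefficients -/
noncomputable def YY (j : ℕ) : ℕ[X] :=
  dform dd (fun k a b => C (kk j k a b))
    (hid dd (fun k a b => C (w0 k a b)) (fun b => X ^ b))
    (cot dd (fun k a b => C (w0 k a b)) (fun b => X ^ b))

theorem YY_eval (j x : ℕ) {t g : Fin 8 → ℕ → ℕ} (T : Trace dd w0 (fun b => x ^ b) t g) :
    (YY j).eval x = dform dd (kk j) t g := by
  have T1 := (trace_hid dd (fun k a b => (C (w0 k a b) : ℕ[X])) (fun b => X ^ b)).map
    (evalRingHom x)
  have h1 := T1.unique T (fun k a _ b _ => by simp) (fun b _ => by simp)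
  unfold YY
  rw [← coe_evalRingHom, map_dform]
  refine dform_congr (fun k a _ b _ => by simp) h1.1 h1.2

theorem YY_coeff (j : ℕ) (hj : j < 65) (m : ℕ) (hm : m < 65) :
    (YY j).coeff m % 7 = if m = j then 1 else 0 := by
  have hb : ∀ i, (YY j).coeff i < bb := fun i =>
    lt_of_le_of_lt (coeff_le_eval_one _ i) (by rw [YY_eval j 1 traceU]; exact checkU j hj)
  rw [coeff_eq_digit bb m _ hb, YY_eval j bb traceB]
  exact chk_spec 7 bb 65 j _ (checkB j hj) m hm

/-- a matrix of natural numbers which is the identity modulo `7` is nonsingular -/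
theorem nonsing {N : ℕ} (M : Fin N → Fin N → ℕ) (hM : ∀ j m, M j m % 7 = if m = j then 1 else 0)
    (v : Fin N → ℂ) (hv : ∀ j, ∑ m, v m * (M j m : ℂ) = 0) : v = 0 := by
  have : Fact (Nat.Prime 7) := ⟨by norm_num⟩
  obtain ⟨Z, hZ⟩ : ∃ Z : Matrix (Fin N) (Fin N) ℤ, ∀ j m, Z j m = (M j m : ℤ) :=
    ⟨Matrix.of fun j m => (M j m : ℤ), fun _ _ => rfl⟩
  have h1 : Z.map (Int.castRingHom (ZMod 7)) = 1 := by
    ext j m
    rw [Matrix.map_apply, hZ, Matrix.one_apply, map_natCast]
    have h2 := hM j m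
    by_cases hjm : j = m
    · rw [if_pos hjm]
      rw [if_pos hjm.symm] at h2
      rw [← Nat.cast_one, ZMod.natCast_eq_natCast_iff, Nat.ModEq, h2]
    · rw [if_neg hjm]
      rw [if_neg (Ne.symm hjm)] at h2
      rw [← Nat.cast_zero, ZMod.natCast_eq_natCast_iff, Nat.ModEq, h2]
  have h3 : Z.det ≠ 0 := by
    intro h0
    have h4 := congrArg (Int.castRingHom (ZMod 7)) h0
    rw [RingHom.map_det, RingHom.mapMatrix_apply, h1, Matrix.det_one, map_zero] at h4
    exact one_ne_zero h4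
  have h5 : (Z.map (Int.castRingHom ℂ)).det ≠ 0 := by
    rw [← RingHom.mapMatrix_apply, ← RingHom.map_det]
    intro h0
    exact h3 (by simpa using h0)
  refine Matrix.eq_zero_of_mulVec_eq_zero h5 ?_
  funext j
  rw [Matrix.mulVec, dotProduct, Pi.zero_apply, ← hv j]
  refine Finset.sum_congr rfl fun m _ => ?_
  rw [Matrix.map_apply, hZ, map_natCast, mul_comm]

end matrix

/-! ### The generic network -/

section generic

open MvPolynomial

/-- the index set of the weights -/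
abbrev II : Type := Fin 7 × Fin 6 × Fin 6

/-- the generic weights -/
noncomputable def gen (k : Fin 7) (a b : ℕ) : MvPolynomial II ℂ :=
  if h : a < 6 ∧ b < 6 then (if k = 6 ∧ a ≠ 0 then 0 else X (k, ⟨a, h.1⟩, ⟨b, h.2⟩)) else 0

/-- the coefficients of the output -/
noncomputable def phi (m : Fin 65) : MvPolynomial II ℂ :=
  (hid dd (fun k a b => Polynomial.C (gen k a b)) (fun b => Polynomial.X ^ b) 7 0).coeff m

/-- the point -/
noncomputable def pt (p : II) : ℂ := (w0 p.1 p.2.1 p.2.2 : ℕ)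

/-- the derivative in the direction `kk j` at `pt` -/
noncomputable def dd' (j : ℕ) : MvPolynomial II ℂ →+ ℂ where
  toFun q := ∑ p : II, (kk j p.1 p.2.1 p.2.2 : ℂ) * eval pt (pderiv p q)
  map_zero' := by simp
  map_add' f g := by simp [mul_add, Finset.sum_add_distrib]

theorem dd'_apply (j : ℕ) (q : MvPolynomial II ℂ) :
    dd' j q = ∑ p : II, (kk j p.1 p.2.1 p.2.2 : ℂ) * eval pt (pderiv p q) := rfl

theorem der_dd' (j : ℕ) : Der (eval pt) (dd' j) where
  mul f g := by
    simp only [dd'_apply, pderiv_mul, map_add, map_mul, Finset.sum_mul, Finset.mul_sum]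
    rw [← Finset.sum_add_distrib]
    refine Finset.sum_congr rfl fun p _ => ?_
    ring

theorem range_bound (k : Fin 7) : dd k.succ ≤ 6 ∧ dd k.castSucc ≤ 6 ∧ (k = 6 → dd k.succ = 1) := by
  revert k
  decide

theorem gen_eq {k : Fin 7} {a b : ℕ} (ha : a < dd k.succ) (hb : b < dd k.castSucc) :
    ∃ (h1 : a < 6) (h2 : b < 6), gen k a b = X (k, ⟨a, h1⟩, ⟨b, h2⟩) := by
  obtain ⟨r1, r2, r3⟩ := range_bound k
  have h1 : a < 6 := lt_of_lt_of_le ha r1
  have h2 : b < 6 := lt_of_lt_of_le hb r2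
  refine ⟨h1, h2, ?_⟩
  unfold gen
  rw [dif_pos ⟨h1, h2⟩, if_neg]
  rintro ⟨hk, h0⟩
  rw [r3 hk] at ha
  omega

theorem eval_gen {k : Fin 7} {a b : ℕ} (ha : a < dd k.succ) (hb : b < dd k.castSucc) :
    eval pt (gen k a b) = (w0 k a b : ℕ) := by
  obtain ⟨h1, h2, h⟩ := gen_eq ha hb
  rw [h, eval_X]
  rfl

theorem dd'_gen (j : ℕ) {k : Fin 7} {a b : ℕ} (ha : a < dd k.succ) (hb : b < dd k.castSucc) :
    dd' j (gen k a b) = (kk j k a b : ℕ) := by
  classical
  obtain ⟨h1, h2, h⟩ := gen_eq ha hb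
  rw [h, dd'_apply, Finset.sum_eq_single (k, ⟨a, h1⟩, ⟨b, h2⟩)]
  · simp
  · intro p _ hp
    rw [pderiv_X_of_ne (Ne.symm hp), map_zero, mul_zero]
  · intro h0
    exact absurd (Finset.mem_univ _) h0

theorem dd'_phi (j : ℕ) (m : Fin 65) : dd' j (phi m) = ((YY j).coeff m : ℂ) := by
  have hD := der_onCoef (der_dd' j)
  -- the trace over the complex numbers
  have T0 := (trace_hid dd (fun k a b => (Polynomial.C (w0 k a b) : Polynomial ℕ))
    (fun b => Polynomial.X ^ b)).map (Polynomial.mapRingHom (Nat.castRingHom ℂ))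
  have T1 := trace_hid dd
    (fun k a b => (Polynomial.mapRingHom (eval pt)) (Polynomial.C (gen k a b)))
    (fun b => (Polynomial.mapRingHom (eval pt)) (Polynomial.X ^ b))
  have h1 := T1.unique T0 (fun k a ha b hb => by
    simp only [Polynomial.coe_mapRingHom, Polynomial.map_C]
    rw [eval_gen ha hb]
    simp) (fun b _ => by simp)
  have h2 := der_net hD dd (by decide) (fun k a b => Polynomial.C (gen k a b))
    (fun b => Polynomial.X ^ b) (fun b => onCoef_X_pow _ (by simp [dd'_apply]) b) T1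
  have h3 : dd' j (phi m) = (onCoef (dd' j) (hid dd (fun k a b => Polynomial.C (gen k a b))
      (fun b => Polynomial.X ^ b) 7 0)).coeff m := by
    rw [coeff_onCoef]
    rfl
  rw [h3, h2]
  have h4 : ((YY j).coeff m : ℂ) =
      (Polynomial.mapRingHom (Nat.castRingHom ℂ) (YY j)).coeff m := by
    rw [Polynomial.coe_mapRingHom, Polynomial.coeff_map]
    rfl
  rw [h4]
  unfold YY
  rw [map_dform]
  refine congrArg (fun f : Polynomial ℂ => f.coeff (m : ℕ)) ?_
  refine dform_congr (fun k a ha b hb => ?_) h1.1 h1.2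
  rw [onCoef_C, dd'_gen j ha hb, Polynomial.coe_mapRingHom, Polynomial.map_C]
  rfl

/-- the differential at the point `pt` has no cokernel -/
theorem no_coker (v : Fin 65 → ℂ) (hv : ∀ p : II, ∑ m, v m * eval pt (pderiv p (phi m)) = 0) :
    v = 0 := by
  obtain ⟨M, hM⟩ : ∃ M : Fin 65 → Fin 65 → ℕ, ∀ j m, M j m = (YY j.val).coeff m.val :=
    ⟨fun j m => (YY j.val).coeff m.val, fun _ _ => Eq.refl _⟩
  refine nonsing M (fun j m => ?_) v fun j => ?_
  · rw [hM, YY_coeff j.val j.2 m.val m.2]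
    simp only [Fin.ext_iff]
  · have h1 : ∑ p : II, (kk j.val p.1 p.2.1 p.2.2 : ℂ) *
        ∑ m, v m * eval pt (pderiv p (phi m)) = 0 :=
      Finset.sum_eq_zero fun p _ => by rw [hv p, mul_zero]
    have h2 : ∀ m, v m * (M j m : ℂ) =
        ∑ p : II, (kk j.val p.1 p.2.1 p.2.2 : ℂ) * (v m * eval pt (pderiv p (phi m))) := by
      intro m
      rw [hM, ← dd'_phi, dd'_apply, Finset.mul_sum]
      refine Finset.sum_congr rfl fun p _ => ?_
      ring
    rw [Finset.sum_congr rfl fun m _ => h2 m, Finset.sum_comm, ← h1]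
    refine Finset.sum_congr rfl fun p _ => ?_
    rw [Finset.mul_sum]

/-- the coefficients of the output of the generic network are algebraically independent -/
theorem dominant (F : MvPolynomial (Fin 65) ℂ) (hF : aeval phi F = 0) : F = 0 :=
  Pool.Agent.H124R3.jacobian_dominant_at phi pt no_coker F hF

end generic

end Pool.Agent.J4.H19.Net
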