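import Pool.Agent.J4.H19.NetNot

set_option autoImplicit false

/-!
A minimal filling width vector which is not unimodal.
-/

namespace Pool.Agent.J4.H19.Net

open Finset MvPolynomial

theorem foldl_eq (e : Fin 8 → ℕ) (W : Fin 7 → ℕ → ℕ → ℂ) (a : ℕ) :
    (List.finRange 7).foldl
      (fun (h : ℕ → MvPolynomial ℕ ℂ) (k : Fin 7) (a : ℕ) =>
        ∑ b ∈ Finset.range (e k.castSucc),
          MvPolynomial.C (W k a b) * h b ^ (if (k : ℕ) = 0 then 1 else 2))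
      (fun b : ℕ => (MvPolynomial.X b : MvPolynomial ℕ ℂ)) a =
    hid e (fun k a b => (C (W k a b) : MvPolynomial ℕ ℂ)) X 7 a := by
  have h1 : List.finRange 7 = [0, 1, 2, 3, 4, 5, 6] := by decide
  rw [h1]
  rfl

/-- a minimal filling width vector below `dd` is not unimodal -/
theorem valley {m : Fin 8 → ℕ} (hm : m ≤ dd) (h0 : m 0 = 2) (h7 : m 7 = 1) (hF : Fill m) :
    ¬ ∃ i : Fin 8, (∀ j k : Fin 8, j ≤ k → k ≤ i → m j ≤ m k) ∧
      (∀ j k : Fin 8, i ≤ j → j ≤ k → m k ≤ m j) := by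
  have h4 : m 4 ≤ 4 := hm 4
  have h3 : 5 ≤ m 3 := by
    by_contra hcon
    exact not_fill3 h0 h7 (by omega) h4 hF
  have h5 : 5 ≤ m 5 := by
    by_contra hcon
    exact not_fill2 h0 h7 h4 (by omega) hF
  rintro ⟨i, h1, h2⟩
  rcases le_total 4 i with hi | hi
  · have := h1 3 4 (by decide) hi
    omega
  · have := h2 4 5 hi (by decide)
    omega

/-- there is a minimal filling width vector below `dd` -/
theorem exists_min {Q : (Fin 8 → ℕ) → Prop} (hQ : Q dd) :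
    ∃ m : Fin 8 → ℕ, m ≤ dd ∧ Q m ∧ ∀ m', m' ≤ m → Q m' → m' = m := by
  have hfin : {m : Fin 8 → ℕ | m ≤ dd ∧ Q m}.Finite :=
    (Set.finite_Iic dd).subset fun m hm => hm.1
  obtain ⟨m, hm, hmin⟩ := hfin.exists_le_minimal ⟨le_refl dd, hQ⟩
  refine ⟨m, hmin.prop.1, hmin.prop.2, fun m' h1 h2 => ?_⟩
  exact le_antisymm h1 (hmin.2 ⟨h1.trans hmin.prop.1, h2⟩ h1)

end Pool.Agent.J4.H19.Net
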