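import Pool.Agent.J4.H19.NetCoord

set_option autoImplicit false

/-!
Networks which are not filling.
-/

namespace Pool.Agent.J4.H19.Net

open Finset MvPolynomial

/-- more polynomials than variables satisfy a relation -/
theorem exists_relation {κ : Type} [Fintype κ] (hκ : Fintype.card κ < 65)
    (f : Fin 65 → MvPolynomial κ ℂ) : ∃ P : MvPolynomial (Fin 65) ℂ, P ≠ 0 ∧ aeval f P = 0 := by
  by_contra hcon
  push Not at hcon
  have h1 : AlgebraicIndependent ℂ f := by
    rw [algebraicIndependent_iff]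
    intro P hP
    by_contra hne
    exact hcon P hne hP
  have h2 := h1.cardinalMk_le_trdeg
  rw [MvPolynomial.trdeg_of_isDomain, Cardinal.mk_fintype, Cardinal.mk_fintype,
    Cardinal.lift_natCast] at h2
  have h3 : Fintype.card (Fin 65) ≤ Fintype.card κ := by exact_mod_cast h2
  rw [Fintype.card_fin] at h3
  omega

/-- a relation between the coefficients of all outputs shows that the network is not filling -/
theorem not_fill_of {e : Fin 8 → ℕ} (he0 : e 0 = 2) (he7 : e 7 = 1)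
    {P : MvPolynomial (Fin 65) ℂ} (hP : P ≠ 0)
    (h : ∀ W : Fin 7 → ℕ → ℕ → ℂ, eval (fun m : Fin 65 =>
      (hid e (fun k a b => Polynomial.C (W k a b)) (fun b => Polynomial.X ^ b) 7 0).coeff m.val)
      P = 0) : ¬ Fill e := by
  intro hF
  apply hP
  apply MvPolynomial.funext
  intro y
  rw [map_zero]
  have h1 := hF (rename (fun j : Fin 65 => ((0 : ℕ), mon j.val)) P) ?_ (extz y) ?_
  · rw [eval_rename] at h1
    rw [← h1]
    refine congrArg (fun g : Fin 65 → ℂ => eval g P) ?_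
    funext j
    exact (extz_mon y j).symm
  · intro W
    rw [eval_rename, ← h W]
    refine congrArg (fun g : Fin 65 → ℂ => eval g P) ?_
    funext j
    exact (coeff_hid e he0 W 0).2 j.val (by omega)
  · intro p hp
    have h2 : ∃ j : Fin 65, p = (0, mon j.val) := by
      by_contra hcon
      push Not at hcon
      exact hp (extz_of_ne y p hcon)
    obtain ⟨j, rfl⟩ := h2
    have hsub : (mon j.val).support ⊆ {0, 1} := by
      intro i hi
      by_contra hni
      simp only [Finset.mem_insert, Finset.mem_singleton, not_or] at hni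
      exact (Finsupp.mem_support_iff.1 hi) (mon_ne _ i hni.1 hni.2)
    refine ⟨by rw [he7]; exact Nat.one_pos, ?_, ?_⟩
    · change ∑ b ∈ (mon j.val).support, mon j.val b = 64
      rw [Finset.sum_subset hsub (fun b _ hb => Finsupp.notMem_support_iff.1 hb)]
      rw [Finset.sum_pair (by decide), mon_zero, mon_one]
      omega
    · intro b hb
      have h3 := hsub hb
      simp only [Finset.mem_insert, Finset.mem_singleton] at h3
      rw [he0]
      omega

/-- exponents of degree `k` in four variables -/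
abbrev TT (k : ℕ) : Type := {α : Fin 4 →₀ ℕ // α ∈ (Finset.univ : Finset (Fin 4)).finsuppAntidiag k}

theorem card_TT (k : ℕ) : Fintype.card (TT k) = (4 + k - 1).choose k := by
  rw [Fintype.card_coe, Finset.card_finsuppAntidiag_nat_eq_choose, Finset.card_univ,
    Fintype.card_fin]

section family

variable {A : Type*} [CommSemiring A]

/-- the form with the coefficients `q` at `y` -/
noncomputable def frm {k : ℕ} (q : TT k → A) (y : Fin 4 → A) : A :=
  ∑ α : TT k, q α * ∏ b, y b ^ α.1 b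

theorem aeval_eq_frm {A : Type*} [CommRing A] [Algebra ℂ A] {k : ℕ} {Q : MvPolynomial (Fin 4) ℂ}
    (hQ : Q.IsHomogeneous k) (y : Fin 4 → A) :
    aeval y Q = frm (fun α : TT k => algebraMap ℂ A (coeff α.1 Q)) y := by
  classical
  have h1 : Q.support ⊆ (Finset.univ : Finset (Fin 4)).finsuppAntidiag k := by
    intro m hm
    have h2 := hQ (mem_support_iff.1 hm)
    rw [Finset.mem_finsuppAntidiag]
    refine ⟨?_, Finset.subset_univ _⟩
    rw [← h2, Finsupp.weight_apply, Finsupp.sum_fintype _ _ (fun _ => by simp)]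
    simp
  have h3 : Q = ∑ m ∈ (Finset.univ : Finset (Fin 4)).finsuppAntidiag k,
      monomial m (coeff m Q) := by
    conv_lhs => rw [Q.as_sum]
    refine Finset.sum_subset h1 fun m _ hm => ?_
    rw [notMem_support_iff.1 hm, monomial_zero]
  conv_lhs => rw [h3]
  rw [map_sum, ← Finset.sum_coe_sort]
  unfold frm
  refine Finset.sum_congr rfl fun α _ => ?_
  rw [aeval_monomial, Finsupp.prod_fintype _ _ (fun _ => pow_zero _)]

/-- the polynomial with the coefficients `u` -/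
noncomputable def pol {d : ℕ} (u : Fin d → A) : Polynomial A :=
  ∑ i, Polynomial.C (u i) * Polynomial.X ^ i.val

theorem pol_coeff {A : Type*} [CommRing A] (f : Polynomial A) {d : ℕ} (hf : f.natDegree < d) :
    pol (fun i : Fin d => f.coeff i.val) = f := by
  unfold pol
  rw [Fin.sum_univ_eq_sum_range (fun i => Polynomial.C (f.coeff i) * Polynomial.X ^ i) d]
  exact (f.as_sum_range_C_mul_X_pow' hf).symm

/-- the family of the outputs with four units in the fourth layer below the output -/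
noncomputable def out3 (u : Fin 4 → Fin 5 → A) (w : Fin 4 → Fin 4 → A) (q : TT 4 → A) :
    Polynomial A :=
  frm (fun α => Polynomial.C (q α))
    (fun b => (∑ c, Polynomial.C (w b c) * pol (u c) ^ 2) ^ 2)

/-- the family of the outputs with four units in the second layer below the output -/
noncomputable def out2 (u : Fin 4 → Fin 9 → A) (w : Fin 4 → Fin 4 → A) (q : TT 2 → A) :
    Polynomial A :=
  frm (fun α => Polynomial.C (q α))
    (fun b => (∑ c, Polynomial.C (w b c) * pol (u c) ^ 2) ^ 2)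

theorem map_frm {B : Type*} [CommSemiring B] (f : A →+* B) {k : ℕ} (q : TT k → A)
    (y : Fin 4 → A) : f (frm q y) = frm (fun α => f (q α)) (fun b => f (y b)) := by
  simp [frm]

theorem map_pol {B : Type*} [CommSemiring B] (f : A →+* B) {d : ℕ} (u : Fin d → A) :
    (pol u).map f = pol (fun i => f (u i)) := by
  simp [pol, Polynomial.map_sum]

theorem map_out3 {B : Type*} [CommSemiring B] (f : A →+* B) (u : Fin 4 → Fin 5 → A)
    (w : Fin 4 → Fin 4 → A) (q : TT 4 → A) :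
    (out3 u w q).map f = out3 (fun c i => f (u c i)) (fun b c => f (w b c)) (fun α => f (q α)) := by
  unfold out3
  rw [← Polynomial.coe_mapRingHom, map_frm]
  simp [map_pol, Polynomial.map_sum]

theorem map_out2 {B : Type*} [CommSemiring B] (f : A →+* B) (u : Fin 4 → Fin 9 → A)
    (w : Fin 4 → Fin 4 → A) (q : TT 2 → A) :
    (out2 u w q).map f = out2 (fun c i => f (u c i)) (fun b c => f (w b c)) (fun α => f (q α)) := by
  unfold out2
  rw [← Polynomial.coe_mapRingHom, map_frm]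
  simp [map_pol, Polynomial.map_sum]

end family

/-! ### The families satisfy relations -/

abbrev K2 : Type := (Fin 4 × Fin 9) ⊕ (Fin 4 × Fin 4) ⊕ TT 2

theorem rel2 : ∃ P : MvPolynomial (Fin 65) ℂ, P ≠ 0 ∧
    ∀ (u : Fin 4 → Fin 9 → ℂ) (w : Fin 4 → Fin 4 → ℂ) (q : TT 2 → ℂ),
      eval (fun m : Fin 65 => (out2 u w q).coeff m.val) P = 0 := by
  obtain ⟨P, hP, h⟩ := exists_relation (κ := K2) (by
    simp only [Fintype.card_sum, Fintype.card_prod, Fintype.card_fin, card_TT]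
    decide) (fun m => (out2 (fun c i => X (Sum.inl (c, i)))
      (fun b c => X (Sum.inr (Sum.inl (b, c)))) (fun α => X (Sum.inr (Sum.inr α)))).coeff m.val)
  refine ⟨P, hP, fun u w q => ?_⟩
  have h1 := congrArg (aeval (Sum.elim (fun p : Fin 4 × Fin 9 => u p.1 p.2)
    (Sum.elim (fun p : Fin 4 × Fin 4 => w p.1 p.2) q))) h
  rw [MvPolynomial.comp_aeval_apply, map_zero] at h1
  rw [← ae_eq, ← h1]
  refine congrArg (fun g : Fin 65 → ℂ => aeval g P) ?_
  funext m
  rw [ae_eq, ← Polynomial.coeff_map, map_out2]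
  simp

abbrev K3 : Type := (Fin 4 × Fin 4) ⊕ (Fin 4 × Fin 3) ⊕ TT 4

abbrev K3' : Type := (Fin 4 × Fin 5) ⊕ (Fin 4 × Fin 4) ⊕ TT 4

/-- rescaling -/
theorem out3_scale (u : Fin 4 → Fin 5 → ℂ) (w : Fin 4 → Fin 4 → ℂ) (q : TT 4 → ℂ)
    (hu : ∀ c, u c 0 ≠ 0) (hw : ∀ b, w b 0 ≠ 0) :
    out3 u w q = out3 (fun c i => u c i / u c 0)
      (fun b c => w b c * u c 0 ^ 2 / (w b 0 * u 0 0 ^ 2))
      (fun α => q α * ∏ b, ((w b 0 * u 0 0 ^ 2) ^ 2) ^ α.1 b) := by
  have h1 : ∀ c, pol (u c) = Polynomial.C (u c 0) * pol (fun i => u c i / u c 0) := by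
    intro c
    unfold pol
    rw [Finset.mul_sum]
    refine Finset.sum_congr rfl fun i _ => ?_
    rw [← mul_assoc, ← Polynomial.C_mul, mul_div_cancel₀ _ (hu c)]
  have h2 : ∀ b, ∑ c, Polynomial.C (w b c) * pol (u c) ^ 2 =
      Polynomial.C (w b 0 * u 0 0 ^ 2) * ∑ c, Polynomial.C (w b c * u c 0 ^ 2 / (w b 0 * u 0 0 ^ 2)) *
        pol (fun i => u c i / u c 0) ^ 2 := by
    intro b
    rw [Finset.mul_sum]
    refine Finset.sum_congr rfl fun c _ => ?_
    have h3 : w b 0 * u 0 0 ^ 2 ≠ 0 := mul_ne_zero (hw b) (pow_ne_zero 2 (hu 0))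
    rw [← mul_assoc, ← Polynomial.C_mul, mul_div_cancel₀ _ h3, h1 c, mul_pow, ← mul_assoc,
      ← Polynomial.C_pow, ← Polynomial.C_mul]
  unfold out3 frm
  refine Finset.sum_congr rfl fun α _ => ?_
  beta_reduce
  rw [Polynomial.C_mul, mul_assoc]
  congr 1
  rw [map_prod, ← Finset.prod_mul_distrib]
  refine Finset.prod_congr rfl fun b _ => ?_
  rw [h2 b, mul_pow, mul_pow, Polynomial.C_pow, Polynomial.C_pow]

theorem rel3_aux : ∃ P : MvPolynomial (Fin 65) ℂ, P ≠ 0 ∧
    ∀ (u : Fin 4 → Fin 5 → ℂ) (w : Fin 4 → Fin 4 → ℂ) (q : TT 4 → ℂ), (∀ c, u c 0 = 1) →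
      (∀ b, w b 0 = 1) → eval (fun m : Fin 65 => (out3 u w q).coeff m.val) P = 0 := by
  obtain ⟨P, hP, h⟩ := exists_relation (κ := K3) (by
    simp only [Fintype.card_sum, Fintype.card_prod, Fintype.card_fin, card_TT]
    decide) (fun m => (out3 (fun c => Fin.cons 1 fun i => X (Sum.inl (c, i)))
      (fun b => Fin.cons 1 fun c => X (Sum.inr (Sum.inl (b, c))))
      (fun α => X (Sum.inr (Sum.inr α)))).coeff m.val)
  refine ⟨P, hP, fun u w q hu hw => ?_⟩
  have h1 := congrArg (aeval (Sum.elim (fun p : Fin 4 × Fin 4 => u p.1 p.2.succ)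
    (Sum.elim (fun p : Fin 4 × Fin 3 => w p.1 p.2.succ) q))) h
  rw [MvPolynomial.comp_aeval_apply, map_zero] at h1
  rw [← ae_eq, ← h1]
  refine congrArg (fun g : Fin 65 → ℂ => aeval g P) ?_
  funext m
  rw [ae_eq, ← Polynomial.coeff_map, map_out3]
  have e1 : (fun (c : Fin 4) (i : Fin 5) => (eval (Sum.elim (fun p : Fin 4 × Fin 4 => u p.1 p.2.succ)
      (Sum.elim (fun p : Fin 4 × Fin 3 => w p.1 p.2.succ) q)))
      ((Fin.cons 1 fun i => X (Sum.inl (c, i)) : Fin 5 → MvPolynomial K3 ℂ) i)) = u := by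
    funext c i
    refine Fin.cases ?_ (fun i => ?_) i
    · rw [Fin.cons_zero, map_one, hu]
    · rw [Fin.cons_succ, eval_X]
      rfl
  have e2 : (fun (b : Fin 4) (c : Fin 4) => (eval (Sum.elim (fun p : Fin 4 × Fin 4 => u p.1 p.2.succ)
      (Sum.elim (fun p : Fin 4 × Fin 3 => w p.1 p.2.succ) q)))
      ((Fin.cons 1 fun c => X (Sum.inr (Sum.inl (b, c))) : Fin 4 → MvPolynomial K3 ℂ) c)) = w := by
    funext b c
    refine Fin.cases ?_ (fun i => ?_) c
    · rw [Fin.cons_zero, map_one, hw]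
    · rw [Fin.cons_succ, eval_X]
      rfl
  rw [e1, e2]
  simp

theorem rel3 : ∃ P : MvPolynomial (Fin 65) ℂ, P ≠ 0 ∧
    ∀ (u : Fin 4 → Fin 5 → ℂ) (w : Fin 4 → Fin 4 → ℂ) (q : TT 4 → ℂ),
      eval (fun m : Fin 65 => (out3 u w q).coeff m.val) P = 0 := by
  obtain ⟨P, hP, h⟩ := rel3_aux
  refine ⟨P, hP, ?_⟩
  -- the relation as a polynomial in the parameters
  obtain ⟨F, hF⟩ : ∃ F : Fin 65 → MvPolynomial K3' ℂ, F = fun m =>
      (out3 (fun c i => X (Sum.inl (c, i))) (fun b c => X (Sum.inr (Sum.inl (b, c))))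
      (fun α => X (Sum.inr (Sum.inr α)))).coeff m.val := ⟨_, rfl⟩
  have hev : ∀ (u : Fin 4 → Fin 5 → ℂ) (w : Fin 4 → Fin 4 → ℂ) (q : TT 4 → ℂ),
      eval (Sum.elim (fun p : Fin 4 × Fin 5 => u p.1 p.2)
        (Sum.elim (fun p : Fin 4 × Fin 4 => w p.1 p.2) q)) (aeval F P) =
      eval (fun m : Fin 65 => (out3 u w q).coeff m.val) P := by
    intro u w q
    rw [← ae_eq, ← ae_eq, MvPolynomial.comp_aeval_apply]
    refine congrArg (fun g : Fin 65 → ℂ => aeval g P) ?_
    funext m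
    rw [ae_eq, hF, ← Polynomial.coeff_map, map_out3]
    simp
  have hzero : aeval F P * ((∏ c : Fin 4, X (Sum.inl (c, 0))) *
      ∏ b : Fin 4, X (Sum.inr (Sum.inl (b, 0)))) = 0 := by
    apply MvPolynomial.funext
    intro x
    rw [map_zero, map_mul, map_mul, map_prod, map_prod]
    simp only [eval_X]
    by_cases hx : (∀ c : Fin 4, x (Sum.inl (c, 0)) ≠ 0) ∧
        ∀ b : Fin 4, x (Sum.inr (Sum.inl (b, 0))) ≠ 0
    · have h1 : x = Sum.elim (fun p : Fin 4 × Fin 5 => x (Sum.inl (p.1, p.2)))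
          (Sum.elim (fun p : Fin 4 × Fin 4 => x (Sum.inr (Sum.inl (p.1, p.2))))
            fun α => x (Sum.inr (Sum.inr α))) := by
        funext z
        rcases z with z | z | z <;> rfl
      have h2 : eval x (aeval F P) = 0 := by
        rw [h1, hev (fun c i => x (Sum.inl (c, i))) (fun b c => x (Sum.inr (Sum.inl (b, c)))),
          out3_scale _ _ _ hx.1 hx.2]
        refine h _ _ _ (fun c => div_self (hx.1 c)) (fun b => ?_)
        exact div_self (mul_ne_zero (hx.2 b) (pow_ne_zero 2 (hx.1 0)))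
      rw [h2, zero_mul]
    · rw [not_and_or] at hx
      rcases hx with hx | hx
      · push Not at hx
        obtain ⟨c, hc⟩ := hx
        have h3 : ∏ c : Fin 4, x (Sum.inl (c, 0)) = 0 := Finset.prod_eq_zero (Finset.mem_univ c) hc
        rw [h3, zero_mul, mul_zero]
      · push Not at hx
        obtain ⟨b, hb⟩ := hx
        have h3 : ∏ b : Fin 4, x (Sum.inr (Sum.inl (b, 0))) = 0 :=
          Finset.prod_eq_zero (Finset.mem_univ b) hb
        rw [h3, mul_zero, mul_zero]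
  have hne : ((∏ c : Fin 4, X (Sum.inl (c, 0))) *
      ∏ b : Fin 4, X (Sum.inr (Sum.inl (b, 0))) : MvPolynomial K3' ℂ) ≠ 0 :=
    mul_ne_zero (Finset.prod_ne_zero_iff.2 fun _ _ => X_ne_zero _)
      (Finset.prod_ne_zero_iff.2 fun _ _ => X_ne_zero _)
  have h0 : aeval F P = 0 := (mul_eq_zero.1 hzero).resolve_right hne
  intro u w q
  rw [← hev u w q, h0, map_zero]

/-! ### Outputs of small networks are in the families -/

/-- degrees of the layers -/
theorem lay_deg {w : ℕ → ℕ → ℂ} {n r d : ℕ} {h : ℕ → Polynomial ℂ}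
    (hh : ∀ b < n, (h b).natDegree ≤ d) (a : ℕ) :
    (lay (fun a b => Polynomial.C (w a b)) n r h a).natDegree ≤ r * d := by
  unfold lay
  refine Polynomial.natDegree_sum_le_of_forall_le _ _ fun b hb => ?_
  refine (Polynomial.natDegree_C_mul_le _ _).trans ?_
  refine Polynomial.natDegree_pow_le.trans ?_
  exact Nat.mul_le_mul_left r (hh b (Finset.mem_range.1 hb))

variable (e : Fin 8 → ℕ) (W : Fin 7 → ℕ → ℕ → ℂ)

/-- the layers of the dehomogenized network -/
noncomputable def hl (l : Fin 8) (a : ℕ) : Polynomial ℂ :=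
  hid e (fun k a b => Polynomial.C (W k a b)) (fun b => Polynomial.X ^ b) l a

variable {e}

theorem deg1 (he : e 0 = 2) (a : ℕ) : (hl e W 1 a).natDegree ≤ 1 * 1 :=
  lay_deg (fun b hb => by
    rw [he] at hb
    refine (Polynomial.natDegree_X_pow_le b).trans ?_
    omega) a

theorem deg3 (he : e 0 = 2) (a : ℕ) : (hl e W 3 a).natDegree ≤ 2 * (2 * (1 * 1)) :=
  lay_deg (fun b _ => lay_deg (fun b _ => deg1 W he b) b) a

theorem deg4 (he : e 0 = 2) (a : ℕ) : (hl e W 4 a).natDegree ≤ 2 * (2 * (2 * (1 * 1))) :=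
  lay_deg (fun b _ => deg3 W he b) a

/-- the inputs of a form in four variables -/
noncomputable def xin (b : ℕ) : MvPolynomial (Fin 4) ℂ := if h : b < 4 then X ⟨b, h⟩ else 0

theorem lay_hom' {w : ℕ → ℕ → ℂ} {n r d : ℕ} {h : ℕ → MvPolynomial (Fin 4) ℂ}
    (hh : ∀ b, (h b).IsHomogeneous d) (a : ℕ) :
    (lay (fun a b => C (w a b)) n r h a).IsHomogeneous (d * r) := by
  unfold lay
  refine IsHomogeneous.sum _ _ _ fun b _ => ?_
  have h1 := (isHomogeneous_C (Fin 4) (w a b)).mul ((hh b).pow r)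
  rwa [zero_add] at h1

theorem xin_hom (b : ℕ) : (xin b).IsHomogeneous 1 := by
  unfold xin
  split_ifs
  · exact isHomogeneous_X ℂ _
  · exact isHomogeneous_zero _ _ _

theorem aeval_lay (w : ℕ → ℕ → ℂ) (n r : ℕ) (h : ℕ → MvPolynomial (Fin 4) ℂ)
    (y : Fin 4 → Polynomial ℂ) (a : ℕ) :
    aeval y (lay (fun a b => C (w a b)) n r h a) =
      lay (fun a b => Polynomial.C (w a b)) n r (fun b => aeval y (h b)) a := by
  have h1 := map_lay (aeval y : MvPolynomial (Fin 4) ℂ →ₐ[ℂ] Polynomial ℂ).toRingHom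
    (fun a b => (C (w a b) : MvPolynomial (Fin 4) ℂ)) n r h a
  simp only [AlgHom.toRingHom_eq_coe, RingHom.coe_coe, ← algebraMap_eq,
    AlgHom.commutes, Polynomial.algebraMap_eq] at h1
  simp only [← algebraMap_eq]
  exact h1

theorem aeval_first (w : ℕ → ℕ → ℂ) {n : ℕ} (hn : n ≤ 4) (h : ℕ → Polynomial ℂ)
    (a : ℕ) : aeval (fun b : Fin 4 => h b.val ^ 2) (lay (fun a b => C (w a b)) n 1 xin a) =
      lay (fun a b => Polynomial.C (w a b)) n 2 h a := by
  rw [aeval_lay]
  unfold lay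
  refine Finset.sum_congr rfl fun b hb => ?_
  rw [Finset.mem_range] at hb
  rw [pow_one]
  have h1 : xin b = X ⟨b, lt_of_lt_of_le hb hn⟩ := by
    unfold xin
    rw [dif_pos (lt_of_lt_of_le hb hn)]
  beta_reduce
  rw [h1, aeval_X]

/-- one layer with at most four inputs -/
theorem lay_fin (w : ℕ → ℕ → ℂ) {n : ℕ} (hn : n ≤ 4) (h : ℕ → Polynomial ℂ) (a : ℕ) :
    lay (fun a b => Polynomial.C (w a b)) n 2 h a =
      ∑ c : Fin 4, Polynomial.C (if c.val < n then w a c.val else 0) * h c.val ^ 2 := by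
  unfold lay
  rw [Fin.sum_univ_eq_sum_range (fun c => Polynomial.C (if c < n then w a c else 0) * h c ^ 2) 4]
  have h1 : ∑ c ∈ range n, Polynomial.C (w a c) * h c ^ 2 =
      ∑ c ∈ range n, Polynomial.C (if c < n then w a c else 0) * h c ^ 2 :=
    Finset.sum_congr rfl fun c hc => by rw [if_pos (Finset.mem_range.1 hc)]
  rw [h1]
  refine Finset.sum_subset (Finset.range_mono hn) fun c _ hc => ?_
  rw [if_neg (fun h => hc (Finset.mem_range.2 h)), Polynomial.C_0, zero_mul]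

theorem in_out3 (he0 : e 0 = 2) (he3 : e 3 ≤ 4) (he4 : e 4 ≤ 4) :
    ∃ (u : Fin 4 → Fin 5 → ℂ) (w : Fin 4 → Fin 4 → ℂ) (q : TT 4 → ℂ), hl e W 7 0 = out3 u w q := by
  have hh1 := lay_hom' (w := W 4) (n := e 4) (r := 1) xin_hom
  have hh2 := lay_hom' (w := W 5) (n := e 5) (r := 2) hh1
  obtain ⟨Q, hQ⟩ : ∃ Q, Q = lay (fun a b => C (W 6 a b)) (e 6) 2
      (lay (fun a b => C (W 5 a b)) (e 5) 2 (lay (fun a b => C (W 4 a b)) (e 4) 1 xin)) 0 :=
    ⟨_, rfl⟩
  have hh3 : Q.IsHomogeneous 4 := by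
    rw [hQ]
    exact lay_hom' (w := W 6) (n := e 6) (r := 2) hh2 0
  refine ⟨fun c i => (hl e W 3 c.val).coeff i.val, fun b c => if c.val < e 3 then W 3 b.val c.val
    else 0, fun α => coeff α.1 Q, ?_⟩
  have h1 : hl e W 7 0 = aeval (fun b : Fin 4 => hl e W 4 b.val ^ 2) Q := by
    rw [hQ, aeval_lay]
    change lay (fun a b => Polynomial.C (W 6 a b)) (e 6) 2 (hl e W 6) 0 = _
    refine lay_congr (fun _ _ => Eq.refl _) fun b _ => ?_
    rw [aeval_lay]
    change lay (fun a b => Polynomial.C (W 5 a b)) (e 5) 2 (hl e W 5) b = _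
    refine lay_congr (fun _ _ => Eq.refl _) fun b _ => ?_
    rw [aeval_first (W 4) he4 (hl e W 4) b]
    rfl
  rw [h1, aeval_eq_frm hh3]
  unfold out3
  refine congrArg₂ _ rfl ?_
  funext b
  refine congrArg (fun f => f ^ 2) ?_
  have h2 : hl e W 4 b.val = lay (fun a b => Polynomial.C (W 3 a b)) (e 3) 2 (hl e W 3) b.val := rfl
  rw [h2, lay_fin (W 3) he3]
  refine Finset.sum_congr rfl fun c _ => ?_
  rw [pol_coeff _ (lt_of_le_of_lt (deg3 W he0 c.val) (by norm_num))]

theorem in_out2 (he0 : e 0 = 2) (he4 : e 4 ≤ 4) (he5 : e 5 ≤ 4) :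
    ∃ (u : Fin 4 → Fin 9 → ℂ) (w : Fin 4 → Fin 4 → ℂ) (q : TT 2 → ℂ), hl e W 7 0 = out2 u w q := by
  have hh1 := lay_hom' (w := W 5) (n := e 5) (r := 1) xin_hom
  obtain ⟨Q, hQ⟩ : ∃ Q, Q = lay (fun a b => C (W 6 a b)) (e 6) 2
      (lay (fun a b => C (W 5 a b)) (e 5) 1 xin) 0 := ⟨_, rfl⟩
  have hh3 : Q.IsHomogeneous 2 := by
    rw [hQ]
    exact lay_hom' (w := W 6) (n := e 6) (r := 2) hh1 0
  refine ⟨fun c i => (hl e W 4 c.val).coeff i.val, fun b c => if c.val < e 4 then W 4 b.val c.val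
    else 0, fun α => coeff α.1 Q, ?_⟩
  have h1 : hl e W 7 0 = aeval (fun b : Fin 4 => hl e W 5 b.val ^ 2) Q := by
    rw [hQ, aeval_lay]
    change lay (fun a b => Polynomial.C (W 6 a b)) (e 6) 2 (hl e W 6) 0 = _
    refine lay_congr (fun _ _ => Eq.refl _) fun b _ => ?_
    rw [aeval_first (W 5) he5 (hl e W 5) b]
    rfl
  rw [h1, aeval_eq_frm hh3]
  unfold out2
  refine congrArg₂ _ rfl ?_
  funext b
  refine congrArg (fun f => f ^ 2) ?_
  have h2 : hl e W 5 b.val = lay (fun a b => Polynomial.C (W 4 a b)) (e 4) 2 (hl e W 4) b.val := rfl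
  rw [h2, lay_fin (W 4) he4]
  refine Finset.sum_congr rfl fun c _ => ?_
  rw [pol_coeff _ (lt_of_le_of_lt (deg4 W he0 c.val) (by norm_num))]

theorem not_fill3 (he0 : e 0 = 2) (he7 : e 7 = 1) (he3 : e 3 ≤ 4) (he4 : e 4 ≤ 4) : ¬ Fill e := by
  obtain ⟨P, hP, h⟩ := rel3
  refine not_fill_of he0 he7 hP fun W => ?_
  obtain ⟨u, w, q, h1⟩ := in_out3 W he0 he3 he4
  have h2 := h u w q
  rw [← h1] at h2
  exact h2

theorem not_fill2 (he0 : e 0 = 2) (he7 : e 7 = 1) (he4 : e 4 ≤ 4) (he5 : e 5 ≤ 4) : ¬ Fill e := by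
  obtain ⟨P, hP, h⟩ := rel2
  refine not_fill_of he0 he7 hP fun W => ?_
  obtain ⟨u, w, q, h1⟩ := in_out2 W he0 he4 he5
  have h2 := h u w q
  rw [← h1] at h2
  exact h2

end Pool.Agent.J4.H19.Net
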