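import Pool.Agent.J4.H19.Net
import Pool.Agent.H124R3.Jac

set_option autoImplicit false

/-!
Derivations on the coefficients of polynomials, and the coefficients of a polynomial with natural
coefficients from two of its values.
-/

namespace Pool.Agent.J4.H19.Net

open Finset Polynomial

section coef

variable {R K : Type*} [CommRing R] [CommRing K]

/-- an additive map on the coefficients -/
noncomputable def onCoef (δ : R →+ K) : R[X] →+ K[X] where
  toFun f := ∑ i ∈ f.support, monomial i (δ (f.coeff i))
  map_zero' := by simp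
  map_add' f g := by
    ext n
    have key : ∀ f : R[X], (∑ i ∈ f.support, monomial i (δ (f.coeff i))).coeff n = δ (f.coeff n) := by
      intro f
      rw [finset_sum_coeff]
      simp only [coeff_monomial]
      rw [Finset.sum_ite_eq']
      split_ifs with h
      · rfl
      · rw [notMem_support_iff.1 h, map_zero]
    rw [coeff_add, key, key, key, coeff_add, map_add]

theorem coeff_onCoef (δ : R →+ K) (f : R[X]) (n : ℕ) : (onCoef δ f).coeff n = δ (f.coeff n) := by
  change (∑ i ∈ f.support, monomial i (δ (f.coeff i))).coeff n = δ (f.coeff n)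
  rw [finset_sum_coeff]
  simp only [coeff_monomial]
  rw [Finset.sum_ite_eq']
  split_ifs with h
  · rfl
  · rw [notMem_support_iff.1 h, map_zero]

theorem der_onCoef {ev : R →+* K} {δ : R →+ K} (H : Der ev δ) :
    Der (mapRingHom ev) (onCoef δ) where
  mul f g := by
    ext n
    rw [coeff_onCoef, coeff_mul, map_sum, coeff_add, coeff_mul, coeff_mul, ← Finset.sum_add_distrib]
    refine Finset.sum_congr rfl fun p _ => ?_
    rw [H.mul, coeff_onCoef, coeff_onCoef, coe_mapRingHom, coeff_map, coeff_map]

theorem onCoef_C (δ : R →+ K) (r : R) : onCoef δ (C r) = C (δ r) := by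
  ext n
  rw [coeff_onCoef, coeff_C, coeff_C]
  split_ifs
  · rfl
  · exact map_zero δ

theorem onCoef_X_pow (δ : R →+ K) (h : δ 1 = 0) (m : ℕ) : onCoef δ (X ^ m) = 0 := by
  ext n
  rw [coeff_onCoef, coeff_X_pow, coeff_zero]
  split_ifs
  · exact h
  · exact map_zero δ

end coef

section digits

theorem coeff_le_eval_one (f : ℕ[X]) (n : ℕ) : f.coeff n ≤ f.eval 1 := by
  rw [eval_eq_sum_range]
  by_cases h : n ≤ f.natDegree
  · have h1 := Finset.single_le_sum (f := fun i => f.coeff i * 1 ^ i) (s := range (f.natDegree + 1))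
      (fun i _ => Nat.zero_le _) (Finset.mem_range.2 (Nat.lt_succ_of_le h))
    simpa using h1
  · rw [coeff_eq_zero_of_natDegree_lt (not_le.1 h)]
    exact Nat.zero_le _

/-- the coefficients of a polynomial with coefficients less than `B` are the digits of the value at
`B` -/
theorem coeff_eq_digit (B : ℕ) : ∀ (n : ℕ) (f : ℕ[X]), (∀ i, f.coeff i < B) →
    f.coeff n = f.eval B / B ^ n % B
  | 0, f, h => by
    have h1 : f.eval B = f.coeff 0 + B * f.divX.eval B := by
      conv_lhs => rw [← divX_mul_X_add f]
      rw [eval_add, eval_mul, eval_X, eval_C]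
      ring
    rw [h1, pow_zero, Nat.div_one, Nat.add_mul_mod_self_left, Nat.mod_eq_of_lt (h 0)]
  | n + 1, f, h => by
    have hB : 0 < B := lt_of_le_of_lt (Nat.zero_le _) (h 0)
    have h1 : f.eval B = f.coeff 0 + B * f.divX.eval B := by
      conv_lhs => rw [← divX_mul_X_add f]
      rw [eval_add, eval_mul, eval_X, eval_C]
      ring
    have h2 := coeff_eq_digit B n f.divX (fun i => by rw [coeff_divX]; exact h _)
    rw [coeff_divX] at h2
    rw [h2, h1, pow_succ', ← Nat.div_div_eq_div_mul, Nat.add_mul_div_left _ _ hB,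
      Nat.div_eq_of_lt (h 0), zero_add]

/-- check of the digits: digit `i` is `1` modulo `p` if `i = j` and `0` otherwise -/
def chk (p B : ℕ) : ℕ → ℕ → ℕ → Bool
  | 0, _, _ => true
  | n + 1, j, y => (y % B % p == (if j = 0 then 1 else 0)) &&
      chk p B n (if j = 0 then n + 1 else j - 1) (y / B)

theorem chk_spec (p B : ℕ) : ∀ (n j y : ℕ), chk p B n j y = true → ∀ i < n,
    y / B ^ i % B % p = if i = j then 1 else 0
  | 0, _, _, _, i, hi => absurd hi (Nat.not_lt_zero i)
  | n + 1, j, y, h, i, hi => by
    rw [chk, Bool.and_eq_true, beq_iff_eq] at h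
    obtain ⟨h1, h2⟩ := h
    cases i with
    | zero =>
      rw [pow_zero, Nat.div_one, h1]
      by_cases hj : j = 0
      · rw [if_pos hj, if_pos hj.symm]
      · rw [if_neg hj, if_neg (Ne.symm hj)]
    | succ i =>
      have h3 := chk_spec p B n _ _ h2 i (Nat.lt_of_succ_lt_succ hi)
      rw [pow_succ', ← Nat.div_div_eq_div_mul, h3]
      by_cases hj : j = 0
      · rw [if_pos hj, if_neg (by omega), if_neg (by omega)]
      · rw [if_neg hj]
        by_cases hi' : i = j - 1
        · rw [if_pos hi', if_pos (by omega)]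
        · rw [if_neg hi', if_neg (by omega)]

end digits

end Pool.Agent.J4.H19.Net
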